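import Pool.Agent.H280Z.Specht.Example

namespace Pool.Agent.Results.MP_b8847a_al.NotSpecht

open Pool.Agent.H280Z.Specht

universe u

/-- Over every field of characteristic zero there is a nonmatrix locally admissible variety of
noncommutative Jordan algebras, closed under adjoining an identity element, which is not finitely
based and hence not Spechtian. -/
theorem result (F : Type u) [Field F] [CharZero F] :
    ∃ Γ : Set (NAPoly F), IsNCJordanVariety Γ ∧ LocallyAdmissible Γ ∧ Nonmatrix Γ ∧ UnitClosed Γ ∧
      ¬ FinitelyBased Γ ∧ ¬ Spechtian Γ :=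
  ⟨Gam F, ncJordan, locAdm, nonmatrix, unitClosed, not_finitelyBased,
    fun h => not_finitelyBased (h _ fun _ hA => hA)⟩

end Pool.Agent.Results.MP_b8847a_al.NotSpecht
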